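import Pool.Agent.T9h57.QD.Spec2
import Pool.Agent.Helper112.LS

/-!
# The additive large sieve
-/

set_option autoImplicit false

namespace Pool.Agent.T9h5.QD

open Finset Pool.Agent.T9h57.QD

theorem lSieve : LSieve := by
  refine ⟨6, by norm_num, fun N Q a _ _ => ?_⟩
  have h := Pool.Agent.Helper112.additive_large_sieve N Q (fun n => (a n : ℂ))
  have h1 : ∑ n ∈ Icc 1 N, ‖((a n : ℝ) : ℂ)‖ ^ 2 = ∑ n ∈ Icc 1 N, a n ^ 2 := by
    refine Finset.sum_congr rfl fun n _ => ?_
    rw [Complex.norm_real, Real.norm_eq_abs, sq_abs]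
  rw [h1] at h
  refine le_trans (le_of_eq ?_) h
  refine Finset.sum_congr rfl fun f _ => Finset.sum_congr rfl fun b _ => ?_
  congr 2
  refine Finset.sum_congr rfl fun n _ => ?_
  unfold Pool.Agent.Helper112.ee
  congr 2
  push_cast
  ring

end Pool.Agent.T9h5.QD
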