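import Pool.Agent.T9h57.QD.Spec

/-!
# `SpanPerOf`
-/

set_option autoImplicit false

namespace Pool.Agent.T9h5.QD

open Finset Pool.Agent.T9h57.QD

theorem spanPerOf : SpanPerOf := by
  classical
  intro hAN hLI hLC m N Q P hQP
  set S : Finset ℕ := (Icc 3 N).filter Odd with hS
  let eq : Fin S.card ≃ S := S.equivFin.symm
  have hsum : ∀ (V : Type) [AddCommMonoid V] (f : ℕ → V),
      ∑ i : Fin S.card, f (eq i).1 = ∑ n ∈ S, f n := by
    intro V _ f
    rw [Equiv.sum_comp eq (fun s : S => f s.1)]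
    exact Finset.sum_coe_sort S f
  have hmem : ∀ i, (eq i).1 ∈ S := fun i => (eq i).2
  have hmem' : ∀ n, n ∈ S ↔ (3 ≤ n ∧ n ≤ N) ∧ Odd n := by
    intro n
    rw [hS, mem_filter, mem_Icc]
  have h := hAN m S.card Q (fun i μ => P (eq i).1 μ) (fun i => Lsv (eq i).1) (by
    intro i
    have := (hmem' _).1 (hmem i)
    exact hLC _ this.2 this.1.1) (by
    intro m' a₀ a₁ b hab
    let b' : ℕ → Fin (m' + 1) → ℝ := fun n => if hn : n ∈ S then b (eq.symm ⟨n, hn⟩) else 0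
    have hb' : ∀ i, b' (eq i).1 = b i := by
      intro i
      simp only [b', dif_pos (hmem i)]
      congr 1
      exact eq.symm_apply_apply i
    obtain ⟨h1, h2, h3⟩ := hLI m' N a₀ a₁ b' (by
      intro t ht0 ht1
      rw [← hab t ht0 ht1]
      congr 1
      rw [← hsum ℝ (fun n => ∑ k, b' n k * Real.log t ^ (k : ℕ) * Lsv n (-t))]
      refine Finset.sum_congr rfl fun i _ => ?_
      rw [hb'])
    refine ⟨h1, h2, ?_⟩
    funext i
    rw [← hb' i]
    have := (hmem' _).1 (hmem i)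
    exact h3 _ this.2 this.1.1 this.1.2) (by
    intro x hx1 hx2
    rw [← hQP x hx1 hx2]
    congr 1
    exact hsum ℝ (fun j => (∑ μ, P j μ (fun _ => vq x)) * Lsv j (x : ℝ)))
  refine ⟨h.1, ?_⟩
  intro j hj h3 hN μ s hs
  have hjS : j ∈ S := (hmem' j).2 ⟨⟨h3, hN⟩, hj⟩
  have := h.2 (eq.symm ⟨j, hjS⟩) μ s hs
  simpa using this

end Pool.Agent.T9h5.QD
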